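import Pool.Agent.Helper95.DZ.Sandwich
import Pool.Agent.Helper98.GY.Stmts

/-!
Riemann integrable functions on a compact metric space are near continuous functions
(MP_7a8f48_an, sheet GY, row RIS).
-/

set_option autoImplicit false

open Finset Filter MeasureTheory Topology

namespace Pool.Agent.Helper98.GY

/-- RIS -/
theorem st_RIS : ST_RIS := by
  intro Y _ _ _ _ ν _ V _ _ F C hF hC ε hε
  obtain ⟨ι, hι, ρ, c, R, h1, h2, h3, h4, h5, h6, h7, h8⟩ :=
    Pool.Agent.Helper95.DZ.sandwich ν F C hC Set.univ dense_univ hF ε hε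
  refine ⟨fun x => ∑ i, ρ i x • F (c i), R, ?_, h2, h6, h7, ?_, h8⟩
  · exact continuous_finsetSum _ fun i _ => (h1 i).smul continuous_const
  · intro x
    calc ‖∑ i, ρ i x • F (c i)‖ ≤ ∑ i, ρ i x * C := by
          refine (norm_sum_le _ _).trans (Finset.sum_le_sum fun i _ => ?_)
          rw [norm_smul, Real.norm_of_nonneg (h4 i x)]
          exact mul_le_mul_of_nonneg_left (hC _) (h4 i x)
      _ = C := by rw [← Finset.sum_mul, h5, one_mul]

end Pool.Agent.Helper98.GY
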